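import Pool.Agent.Helper85.LN.Goals

/-! # Project LN (MP_d0c558_al): CERTA, certificates exist for finitely presented groups with section
groups of finite index -/

namespace Pool.Agent.Helper31.LN

open Pool.Agent.Helper85.LN

section

variable {Q X : Type*} (A : Auto Q X)

/-- a word with value `g` -/
noncomputable def wd (g : A.G) : List (S Q) := Classical.choose ((A.mem_G_iff g.1).1 g.2)

theorem wd_spec (g : A.G) : A.val (wd A g) = g.1 := Classical.choose_spec ((A.mem_G_iff g.1).1 g.2)

/-- action on letters -/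
noncomputable def ac (g : A.G) (a : X) : X := A.toWA.ltw (wd A g) a

/-- section at a letter -/
noncomputable def se (g : A.G) (a : X) : A.G := ⟨A.val (A.toWA.scw (wd A g) a), A.val_mem _⟩

theorem g_apply (g : A.G) (a : X) (u : List X) : g.1 (a :: u) = ac A g a :: (se A g a).1 u := by
  conv_lhs => rw [← wd_spec A g]
  exact A.val_apply_cons _ _ _

theorem ac_val (g : A.G) (w : List (S Q)) (h : A.val w = g.1) (a : X) :
    ac A g a = A.toWA.ltw w a := by
  have h1 := g_apply A g a []
  rw [← h, A.val_apply_cons] at h1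
  exact (List.cons.inj h1).1.symm

theorem se_val (g : A.G) (w : List (S Q)) (h : A.val w = g.1) (a : X) :
    (se A g a).1 = A.val (A.toWA.scw w a) := by
  ext1 u
  have h1 := g_apply A g a u
  rw [← h, A.val_apply_cons] at h1
  exact (List.cons.inj h1).2.symm

theorem val_mul (g h : A.G) : A.val (wd A g ++ wd A h) = (g * h).1 := by
  rw [A.val_append, wd_spec, wd_spec]
  rfl

theorem ac_mul (g h : A.G) (a : X) : ac A (g * h) a = ac A g (ac A h a) := by
  rw [ac_val A (g * h) _ (val_mul A g h), WA.ltw_append]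
  rfl

theorem se_mul (g h : A.G) (a : X) : se A (g * h) a = se A g (ac A h a) * se A h a := by
  apply Subtype.ext
  rw [se_val A (g * h) _ (val_mul A g h), WA.scw_append, A.val_append]
  rfl

theorem ac_one (a : X) : ac A 1 a = a := by
  rw [ac_val A 1 [] A.val_nil]
  rfl

/-- the action on letters as a homomorphism -/
noncomputable def actH : A.G →* Equiv.Perm X where
  toFun g := ⟨ac A g, ac A g⁻¹, fun a => by rw [← ac_mul, inv_mul_cancel, ac_one],
    fun a => by rw [← ac_mul, mul_inv_cancel, ac_one]⟩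
  map_one' := Equiv.ext fun a => ac_one A a
  map_mul' g h := Equiv.ext fun a => ac_mul A g h a

theorem actH_apply (g : A.G) (a : X) : actH A g a = ac A g a := rfl

/-- the generators -/
def gm (q : Q) : A.G := ⟨A.perm q, Subgroup.subset_closure ⟨q, rfl⟩⟩

theorem ev_gm (w : List (S Q)) : (ev (gm A) w).1 = A.val w := by
  induction w with
  | nil => rfl
  | cons s w ih =>
    have h1 : ev (gm A) (s :: w) = cond s.2 (gm A s.1) (gm A s.1)⁻¹ * ev (gm A) w := by
      simp [ev]
    rw [h1, A.val_cons, ← ih]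
    obtain ⟨q, b⟩ := s
    cases b <;> rfl

theorem ev_mem (w : List (S Q)) : ev (gm A) w ∈ Subgroup.closure (Set.range (gm A)) := by
  induction w with
  | nil => exact Subgroup.one_mem _
  | cons s w ih =>
    have h1 : ev (gm A) (s :: w) = cond s.2 (gm A s.1) (gm A s.1)⁻¹ * ev (gm A) w := by
      simp [ev]
    rw [h1]
    refine Subgroup.mul_mem _ ?_ ih
    obtain ⟨q, b⟩ := s
    cases b
    · exact Subgroup.inv_mem _ (Subgroup.subset_closure ⟨q, rfl⟩)
    · exact Subgroup.subset_closure ⟨q, rfl⟩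

theorem ev_append {H : Type*} [Group H] (γ : Q → H) (u v : List (S Q)) :
    ev γ (u ++ v) = ev γ u * ev γ v := by
  simp [ev]

theorem val_one (q : Q) : A.val [(q, true)] = (gm A q).1 := by
  rw [A.val_cons, A.val_nil, mul_one]
  rfl

end

theorem certa : S_CERTA := by
  classical
  intro hG m d A R hLN hfin hR
  have hR' : ∀ u v, ev (gm A) u = ev (gm A) v → Eqv R u v := by
    intro u v h
    have h0 : A.val u = A.val v := by rw [← ev_gm, ← ev_gm, h]
    have h1 : Eqv R (u ++ iw v) [] := by
      apply (hR _).1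
      rw [A.val_append, A.val_iw, h0, mul_inv_cancel]
    have h2 : Eqv R (u ++ (iw v ++ v)) (u ++ []) := (Eqv.iw_mul v).append_left u
    have h3 : Eqv R ((u ++ iw v) ++ v) ([] ++ v) := h1.append_right v
    rw [List.append_nil] at h2
    rw [List.append_assoc] at h3
    exact h2.symm.trans h3
  have c1 : ∀ (g : A.G) (a : Fin d), actH A g a = a → se A g a = 1 → g = 1 := by
    intro g a hg hs
    have h3 := hLN g.1 g.2 [a] (fun w => by
      rw [List.singleton_append, g_apply, ← actH_apply, hg, hs]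
      rfl)
    exact Subtype.ext h3
  have c2 : ∀ a : Fin d, ∃ E : Finset A.G, ∀ g : A.G, ∃ e ∈ E, ∃ h : A.G, actH A h a = a ∧
      se A h a = e⁻¹ * g := by
    intro a
    obtain ⟨E, hE⟩ := hfin a
    refine ⟨E.subtype (· ∈ A.G), fun g => ?_⟩
    obtain ⟨e, he, heG, h, hh, hw⟩ := hE g.1 g.2
    refine ⟨⟨e, heG⟩, Finset.mem_subtype.2 he, ⟨h, hh⟩, ?_, ?_⟩
    · have h3 := g_apply A ⟨h, hh⟩ a []
      rw [actH_apply]
      have h4 := hw []
      rw [h3] at h4
      exact (List.cons.inj h4).1
    · apply Subtype.ext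
      ext1 u
      have h3 := g_apply A ⟨h, hh⟩ a u
      have h4 := hw u
      rw [h3] at h4
      exact (List.cons.inj h4).2
  have c3 : Subgroup.closure (Set.range (gm A)) = ⊤ := by
    rw [eq_top_iff]
    intro g _
    have h3 : g = ev (gm A) (wd A g) := Subtype.ext (by rw [ev_gm, wd_spec])
    rw [h3]
    exact ev_mem A _
  have c4 : ∀ (q : Fin m) (a : Fin d), gm A (A.tr q a) = se A (gm A q) a := by
    intro q a
    apply Subtype.ext
    rw [se_val A (gm A q) [(q, true)] (val_one A q)]
    have h3 : A.toWA.scw [(q, true)] a = [(A.tr q a, true)] := rfl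
    rw [h3, val_one]
  obtain ⟨k, B, t, l, h1, h2⟩ := hG A.G m d (actH A) (se A) (gm A) A.tr
    (fun g h a => se_mul A g h a) c1 c2 c3 c4
  refine ⟨R, k, B, t, l, ?_, ?_, ?_⟩
  · intro r hr z
    have h3 : A.val r = 1 := (hR r).2 (Eqv.rel hr)
    exact ⟨A.ltw_of_val_eq_one r h3 z, (hR _).1 (A.scw_of_val_eq_one r h3 z)⟩
  · intro r hr z
    have h3 : A.val r = 1 := (hR r).2 (Eqv.rel hr)
    have h4 : ev (gm A) r = 1 := Subtype.ext (by rw [ev_gm, h3]; rfl)
    refine ⟨(h1 r h4 z).1, hR' _ _ ?_⟩
    rw [(h1 r h4 z).2]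
    rfl
  · intro q a
    have h3 : actH A (gm A q) a = A.out q a := by
      rw [actH_apply, ac_val A (gm A q) [(q, true)] (val_one A q)]
      rfl
    have h4 := h2 q a
    rw [h3] at h4
    refine ⟨h4.1, hR' _ _ ?_⟩
    have h5 : ev (gm A) [(q, true)] = gm A q := mul_one _
    rw [ev_append, ev_append, h4.2, h5]

end Pool.Agent.Helper31.LN
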